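import Pool.Agent.H913.Final

/-!
# The Kawaguchi-Silverman conjecture for endomorphisms of projective line bundles over any base

The definitions are in `Pool/Agent/H913/Defs.lean`.

`X = ℙ(E)` is the projectivization of a vector bundle of rank two over an irreducible projective
variety `Y` over the algebraic numbers (`Bundle κ ι`), `f` is an endomorphism of `X` over an
endomorphism `g` of `Y` (`Endo X`), given on the fibres by forms of degree `lam ≥ 2`.  We assume that
for some `k ≥ 1` and some line `ℓ` of the family (the fibre over `y₀`) the restriction of `f ^ k` to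
`ℓ` does not have two totally ramified points.

(1) For every `D` and `B` there is a bihomogeneous form `P`, not identically zero on `X`, such that
all points `x` of `X` with `P x ≠ 0` defined over some number field of degree at most `D` satisfy
`ht (f ^ n (x)) ≥ B * lam ^ n` for all `n ≥ k`.  Here `(F.map^[n] x).2` is the point `f ^ n (x)` in
the projective space which contains the lines.

(2) If the orbit of `x` is Zariski dense and `α` is the arithmetic degree of the image of `x` in `Y`
with respect to `g`, then the arithmetic degree of `x` with respect to `f` is `max lam α`.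
-/

set_option autoImplicit false

namespace Pool.Agent.Results.MP_0e7dfd_ag.LineBundlesOverAnyBase

open Pool.Agent.H913.KS Filter Topology MvPolynomial Pool.Agent.V11286.AbsHeight

theorem result {κ ι : Type} [Fintype κ] [Fintype ι] [DecidableEq κ] [DecidableEq ι]
    (X : Bundle κ ι) (F : Endo X) (hlam : 2 ≤ F.lam) {k : ℕ} (hk : 1 ≤ k) {y₀ : PS κ}
    (hy₀ : y₀ ∈ X.Y)
    (hram : ¬ ∃ x₁ ∈ X.pts, ∃ x₂ ∈ X.pts, x₁.1 = y₀ ∧ x₂.1 = y₀ ∧ x₁ ≠ x₂ ∧ F.TotRam k x₁ ∧
      F.TotRam k x₂) :
    (∀ (D : ℕ) (B : ℝ), ∃ (P : MvPolynomial (κ ⊕ ι) Qb) (a b : ℕ), Bihom P a b ∧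
      (∃ x ∈ X.pts, bival P x ≠ 0) ∧
      ∀ x ∈ X.pts, DegLE D x → bival P x ≠ 0 → ∀ n, k ≤ n →
        B * (F.lam : ℝ) ^ n ≤ ht (F.map^[n] x).2) ∧
    ∀ x ∈ X.pts, Dense X (Set.range fun n => F.map^[n] x) → ∀ α : ℝ,
      Tendsto (fun n : ℕ => (max 1 (ht (F.map^[n] x).1)) ^ (1 / (n : ℝ))) atTop (𝓝 α) →
      Tendsto (fun n : ℕ => (max 1 (ht (F.map^[n] x).1 + ht (F.map^[n] x).2)) ^ (1 / (n : ℝ)))
        atTop (𝓝 (max (F.lam : ℝ) α)) :=
  ⟨fun D B => F.quant hlam hk hy₀ hram D B,
    fun _ hx hd _ hα => F.arith hlam hk hy₀ hram hx hd hα⟩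

end Pool.Agent.Results.MP_0e7dfd_ag.LineBundlesOverAnyBase
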